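import Pool.Agent.Gen.TY.A.HX
import Pool.Agent.Gen.TY.A.H_00
import Pool.Agent.Gen.TY.A.H_01
import Pool.Agent.Gen.TY.A.H_03
import Pool.Agent.Gen.TY.A.H_04
import Pool.Agent.Gen.TY.A.H_07
import Pool.Agent.Gen.TY.A.H_08
import Pool.Agent.Gen.TY.A.H_09
import Pool.Agent.Gen.TY.A.H_10
import Pool.Agent.Gen.TY.A.H_11
import Pool.Agent.Gen.TY.A.H_12
import Pool.Agent.Gen.TY.A.H_13
import Pool.Agent.Gen.TY.A.O_00
import Pool.Agent.Gen.TY.A.O_01
import Pool.Agent.Gen.TY.A.O_02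
import Pool.Agent.Gen.TY.A.O_03
import Pool.Agent.Gen.TY.A.O_04
import Pool.Agent.Gen.TY.A.O_05
import Pool.Agent.Gen.TY.A.O_06
import Pool.Agent.Gen.TY.A.O_07
import Pool.Agent.Gen.TY.A.O_08
import Pool.Agent.Gen.TY.A.O_09
import Pool.Agent.Gen.TY.A.O_10
import Pool.Agent.Gen.TY.A.O_11
import Pool.Agent.Gen.TY.A.O_12
import Pool.Agent.Gen.TY.A.O_13
import Pool.Agent.Gen.TY.A.O_14
import Pool.Agent.Gen.TY.A.O_15
import Pool.Agent.Gen.TY.A.O_16
import Pool.Agent.Gen.TY.A.O_17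
import Pool.Agent.Gen.TY.A.O_18
import Pool.Agent.Gen.TY.A.O_19
import Pool.Agent.Gen.TY.A.O_20
import Pool.Agent.Gen.TY.A.O_21
import Pool.Agent.Gen.TY.A.O_22
import Pool.Agent.Gen.TY.A.O_23
import Pool.Agent.Gen.TY.A.O_24
import Pool.Agent.Gen.TY.A.O_25
import Pool.Agent.Gen.TY.A.O_26
import Pool.Agent.Gen.TY.A.O_27
import Pool.Agent.Gen.TY.A.O_28
import Pool.Agent.Gen.TY.A.O_29
import Pool.Agent.Gen.TY.A.O_30
import Pool.Agent.Gen.TY.A.O_31
import Pool.Agent.Gen.TY.A.O_32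

/-! MP_8ee768_co, TH-Y', stage A: all 24746 classes. -/

set_option autoImplicit false

namespace Pool.Agent.Gen.TY.A

open Pool.Agent.Helper38.TY (SA)

theorem u_0 : SA 0 456 := (SA.app (SA.app (SA.app (SA.app (SA.app o_0 h_28) (SA.app h_29 (SA.app h_30 o_31))) (SA.app (SA.app h_34 o_35) (SA.app h_67 (SA.app o_68 h_71)))) (SA.app (SA.app (SA.app h_72 o_73) (SA.app h_142 (SA.app o_143 h_151))) (SA.app (SA.app o_152 h_190) (SA.app o_191 (SA.app h_213 o_214))))) (SA.app (SA.app (SA.app (SA.app h_232 o_233) (SA.app h_291 (SA.app o_292 h_316))) (SA.app (SA.app o_317 h_325) (SA.app o_326 (SA.app h_346 h_347)))) (SA.app (SA.app (SA.app o_348 h_359) (SA.app o_360 (SA.app h_379 o_380))) (SA.app (SA.app h_385 o_386) (SA.app h_396 (SA.app o_397 h_455))))))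
theorem u_456 : SA 456 2791 := (SA.app (SA.app (SA.app (SA.app (SA.app h_456 h_457) (SA.app h_458 (SA.app o_459 h_463))) (SA.app (SA.app o_464 h_465) (SA.app o_466 (SA.app o_777 h_992)))) (SA.app (SA.app (SA.app o_993 h_1224) (SA.app o_1225 (SA.app h_1235 o_1236))) (SA.app (SA.app h_1302 o_1303) (SA.app o_1515 (SA.app h_1595 o_1596))))) (SA.app (SA.app (SA.app (SA.app h_1600 h_1601) (SA.app o_1602 (SA.app h_1714 o_1715))) (SA.app (SA.app h_1721 h_1722) (SA.app o_1723 (SA.app o_2297 h_2661)))) (SA.app (SA.app (SA.app o_2662 h_2770) (SA.app h_2771 (SA.app h_2772 h_2773))) (SA.app (SA.app h_2774 h_2775) (SA.app h_2776 (SA.app o_2777 h_2790))))))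
theorem u_2791 : SA 2791 3473 := (SA.app (SA.app (SA.app (SA.app (SA.app o_2791 h_2797) (SA.app h_2798 (SA.app h_2799 h_2800))) (SA.app (SA.app h_2801 o_2802) (SA.app h_2803 (SA.app o_2804 h_2805)))) (SA.app (SA.app (SA.app o_2806 h_2867) (SA.app o_2868 (SA.app h_2890 o_2891))) (SA.app (SA.app h_2946 o_2947) (SA.app h_2985 (SA.app o_2986 h_3025))))) (SA.app (SA.app (SA.app (SA.app o_3026 h_3030) (SA.app o_3031 (SA.app h_3078 o_3079))) (SA.app (SA.app h_3094 o_3095) (SA.app h_3114 (SA.app o_3115 o_3128)))) (SA.app (SA.app (SA.app h_3457 o_3458) (SA.app h_3459 (SA.app o_3460 h_3462))) (SA.app (SA.app o_3463 h_3465) (SA.app o_3466 (SA.app h_3471 h_3472))))))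
theorem u_3473 : SA 3473 6704 := (SA.app (SA.app (SA.app (SA.app (SA.app o_3473 o_3993) (SA.app h_4094 (SA.app o_4095 h_4109))) (SA.app (SA.app o_4110 h_4418) (SA.app o_4419 (SA.app h_4630 o_4631)))) (SA.app (SA.app (SA.app h_4685 o_4686) (SA.app o_4801 (SA.app h_4981 o_4982))) (SA.app (SA.app h_5259 o_5260) (SA.app o_5677 (SA.app h_5847 o_5848))))) (SA.app (SA.app (SA.app (SA.app h_6117 o_6118) (SA.app h_6305 (SA.app o_6306 o_6358))) (SA.app (SA.app h_6404 o_6405) (SA.app h_6567 (SA.app o_6568 h_6580)))) (SA.app (SA.app (SA.app h_6581 h_6582) (SA.app o_6583 (SA.app h_6584 h_6585))) (SA.app (SA.app h_6586 o_6587) (SA.app h_6682 (SA.app o_6683 h_6703))))))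
theorem u_6704 : SA 6704 10990 := (SA.app (SA.app (SA.app (SA.app (SA.app o_6704 h_6720) (SA.app o_6721 (SA.app h_6785 o_6786))) (SA.app (SA.app h_6854 o_6855) (SA.app h_6858 (SA.app o_6859 h_6894)))) (SA.app (SA.app (SA.app o_6895 o_7046) (SA.app h_7550 (SA.app o_7551 o_7827))) (SA.app (SA.app h_7967 o_7968) (SA.app h_8374 (SA.app o_8375 h_8573))))) (SA.app (SA.app (SA.app (SA.app o_8574 h_8590) (SA.app o_8591 (SA.app h_8627 o_8628))) (SA.app (SA.app h_8650 o_8651) (SA.app o_8665 (SA.app h_8716 o_8717)))) (SA.app (SA.app (SA.app h_8956 o_8957) (SA.app h_9051 (SA.app o_9052 h_9065))) (SA.app (SA.app o_9066 o_9395) (SA.app o_10186 (SA.app h_10593 o_10594))))))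
theorem u_10990 : SA 10990 15984 := (SA.app (SA.app (SA.app (SA.app (SA.app o_10990 o_11745) (SA.app h_11746 (SA.app o_11747 h_11926))) (SA.app (SA.app o_11927 h_11950) (SA.app h_11951 (SA.app o_11952 o_12452)))) (SA.app (SA.app (SA.app h_13062 o_13063) (SA.app o_13235 (SA.app h_13513 o_13514))) (SA.app (SA.app o_14109 h_14511) (SA.app o_14512 (SA.app h_14654 h_14655))))) (SA.app (SA.app (SA.app (SA.app h_14656 h_14657) (SA.app h_14658 (SA.app h_14659 h_14660))) (SA.app (SA.app o_14661 h_14664) (SA.app o_14665 (SA.app h_14668 o_14669)))) (SA.app (SA.app (SA.app h_14672 o_14673) (SA.app o_14806 (SA.app h_15293 o_15294))) (SA.app (SA.app o_15477 h_15722) (SA.app o_15723 (SA.app h_15834 o_15835))))))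
theorem u_15984 : SA 15984 19523 := (SA.app (SA.app (SA.app (SA.app (SA.app h_15984 o_15985) (SA.app o_16282 (SA.app h_17102 o_17103))) (SA.app (SA.app h_17111 o_17112) (SA.app o_17224 (SA.app h_17960 o_17961)))) (SA.app (SA.app (SA.app h_17971 h_17972) (SA.app o_17973 (SA.app h_17981 o_17982))) (SA.app (SA.app h_17986 o_17987) (SA.app h_17989 (SA.app h_17990 h_17991))))) (SA.app (SA.app (SA.app (SA.app o_17992 h_18000) (SA.app o_18001 (SA.app h_18002 h_18003))) (SA.app (SA.app h_18004 o_18005) (SA.app o_18038 (SA.app h_18333 o_18334)))) (SA.app (SA.app (SA.app h_18668 o_18669) (SA.app o_18735 (SA.app h_18805 h_18806))) (SA.app (SA.app o_18807 h_19221) (SA.app o_19222 (SA.app h_19521 h_19522))))))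
theorem u_19523 : SA 19523 23252 := (SA.app (SA.app (SA.app (SA.app (SA.app h_19523 h_19524) (SA.app h_19525 (SA.app h_19526 h_19527))) (SA.app (SA.app h_19528 h_19529) (SA.app o_19530 (SA.app o_19647 h_20032)))) (SA.app (SA.app (SA.app o_20033 o_20423) (SA.app h_20650 (SA.app o_20651 h_20712))) (SA.app (SA.app o_20713 o_21041) (SA.app h_21525 (SA.app o_21526 h_21535))))) (SA.app (SA.app (SA.app (SA.app o_21536 o_21538) (SA.app h_21543 (SA.app o_21544 h_21835))) (SA.app (SA.app o_21836 h_21883) (SA.app o_21884 (SA.app o_22053 h_22081)))) (SA.app (SA.app (SA.app o_22082 h_22186) (SA.app o_22187 (SA.app h_22191 o_22192))) (SA.app (SA.app o_22678 h_23133) (SA.app o_23134 (SA.app h_23176 o_23177))))))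
theorem u_23252 : SA 23252 24746 := (SA.app (SA.app (SA.app (SA.app h_23252 (SA.app o_23253 o_23317)) (SA.app (SA.app h_23972 o_23973) (SA.app h_23983 o_23984))) (SA.app (SA.app (SA.app h_23989 h_23990) (SA.app o_23991 h_24005)) (SA.app (SA.app h_24006 h_24007) (SA.app h_24008 h_24009)))) (SA.app (SA.app (SA.app (SA.app h_24010 h_24011) (SA.app h_24012 o_24013)) (SA.app (SA.app o_24046 h_24473) (SA.app h_24474 h_24475))) (SA.app (SA.app (SA.app h_24476 h_24477) (SA.app h_24478 o_24479)) (SA.app (SA.app h_24641 o_24642) (SA.app h_24736 o_24737)))))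

/-- stage A -/
theorem all : SA 0 24746 := (SA.app (SA.app (SA.app u_0 u_456) (SA.app u_2791 u_3473)) (SA.app (SA.app u_6704 u_10990) (SA.app u_15984 (SA.app u_19523 u_23252))))

end Pool.Agent.Gen.TY.A
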