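import Pool.Agent.Gen.TY.A.H_00
import Pool.Agent.Gen.TY.A.H_01
import Pool.Agent.Gen.TY.A.H_02
import Pool.Agent.Gen.TY.A.H_03
import Pool.Agent.Gen.TY.A.H_04
import Pool.Agent.Gen.TY.A.H_05
import Pool.Agent.Gen.TY.A.H_06
import Pool.Agent.Gen.TY.A.H_07
import Pool.Agent.Gen.TY.A.H_08
import Pool.Agent.Gen.TY.A.H_09
import Pool.Agent.Gen.TY.A.H_10
import Pool.Agent.Gen.TY.A.H_11
import Pool.Agent.Gen.TY.A.H_12
import Pool.Agent.Gen.TY.A.H_13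

set_option autoImplicit false
set_option maxRecDepth 100000
set_option linter.all false

namespace Pool.Agent.Gen.TY.A

open Pool.Agent.Helper38.TY (ptA SA sP pC pN coverS)
open Pool.Agent.Helper36.TY (gtA glA GA gG gL gC selG)

theorem q_325_0_2 : GA 325 0xa67583037339000000000000008262a19003d6420000000000000054a2829003d641000000000000008392a15103d6404 0 2 0 64 0 64 255 [] :=
  (GA.a (GA.b (GA.a (GA.b (GA.b (GA.a (gG g_325_0_2_0) (gG g_325_0_2_1)) (GA.a (GA.b (gG g_325_0_2_2) (gG g_325_0_2_3)) (GA.b (gG g_325_0_2_4) (gG g_325_0_2_5)))) (GA.a (GA.b (gG g_325_0_2_6) (gG g_325_0_2_7)) (GA.a (gG g_325_0_2_8) (GA.a (gG g_325_0_2_9) (gG g_325_0_2_10))))) (GA.b (GA.a (GA.a (gG g_325_0_2_11) (GA.b (gG g_325_0_2_12) (gG g_325_0_2_13))) (GA.b (GA.a (gG g_325_0_2_14) (gG g_325_0_2_15)) (GA.a (gG g_325_0_2_16) (gG g_325_0_2_17)))) (GA.a (GA.b (GA.a (gG g_325_0_2_18) (gG g_325_0_2_19))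 (GA.a (gG g_325_0_2_20) (gG g_325_0_2_21))) (GA.b (gG g_325_0_2_22) (gG g_325_0_2_23))))) (GA.b (GA.a (GA.b (GA.a (GA.b (gG g_325_0_2_24) (gG g_325_0_2_25)) (GA.b (gG g_325_0_2_26) (gG g_325_0_2_27))) (GA.a (GA.a (gG g_325_0_2_28) (gG g_325_0_2_29)) (gG g_325_0_2_30))) (GA.b (GA.a (GA.a (gG g_325_0_2_31) (gG g_325_0_2_32)) (GA.b (gG g_325_0_2_33) (gG g_325_0_2_34))) (GA.a (GA.a (gG g_325_0_2_35) (gG g_325_0_2_36)) (GA.b (gG g_325_0_2_37) (gG g_325_0_2_38))))) (GA.a (GA.b (GA.a (GA.b (gG g_325_0_2_39) (gG g_325_0_2_40)) (GA.b (gG g_325_0_2_41) (gG g_325_0_2_42))) (GA.a (gG g_325_0_2_43) (gG g_325_0_2_44))) (GA.b (GA.a (GA.a (gG g_325_0_2_45) (gG g_325_0_2_46)) (GA.b (gG g_325_0_2_47) (gG g_325_0_2_48))) (GA.a (gG g_325_0_2_49) (gG g_325_0_2_50)))))) (GA.b (GA.a (GA.b (GA.a (GA.b (GA.a (gG g_325_0_2_51) (gG g_325_0_2_52)) (GA.a (gG g_325_0_2_53) (gG g_325_0_2_54))) (GA.b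 (GA.a (gG g_325_0_2_55) (gG g_325_0_2_56)) (GA.b (gG g_325_0_2_57) (gG g_325_0_2_58)))) (GA.a (GA.b (gG g_325_0_2_59) (GA.a (gG g_325_0_2_60) (gG g_325_0_2_61))) (GA.b (GA.a (gG g_325_0_2_62) (GA.b (gG g_325_0_2_63) (gG g_325_0_2_64))) (gG g_325_0_2_65)))) (GA.b (GA.a (GA.b (GA.a (gG g_325_0_2_66) (gG g_325_0_2_67)) (gG g_325_0_2_68)) (GA.b (GA.a (gG g_325_0_2_69) (gG g_325_0_2_70)) (gG g_325_0_2_71))) (GA.b (GA.a (gG g_325_0_2_72) (GA.a (gG g_325_0_2_73) (gG g_325_0_2_74))) (GA.a (GA.b (gG g_325_0_2_75) (gG g_325_0_2_76)) (GA.a (gG g_325_0_2_77) (gG g_325_0_2_78)))))) (GA.a (GA.b (GA.a (GA.b (GA.a (gG g_325_0_2_79) (gG g_325_0_2_80)) (GA.a (gG g_325_0_2_81) (gG g_325_0_2_82))) (GA.b (GA.b (gG g_325_0_2_83) (gG g_325_0_2_84)) (gG g_325_0_2_85))) (GA.a (GA.b (gG g_325_0_2_86) (gG g_325_0_2_87)) (GA.b (GA.a (gG g_325_0_2_88) (gG g_325_0_2_89)) (GA.a (gG g_325_0_2_90)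 (gG g_325_0_2_91))))) (GA.b (GA.a (GA.b (GA.b (gG g_325_0_2_92) (gG g_325_0_2_93)) (gG g_325_0_2_94)) (GA.b (GA.a (gG g_325_0_2_95) (gG g_325_0_2_96)) (GA.a (gG g_325_0_2_97) (gG g_325_0_2_98)))) (GA.a (GA.b (gG g_325_0_2_99) (GA.b (gG g_325_0_2_100) (gG g_325_0_2_101))) (GA.b (gG g_325_0_2_102) (gG g_325_0_2_103)))))))

theorem h_325 : SA 325 326 :=
  sP (by decide +kernel : coverS [selG 0 1, selG 0 2, selG 0 9, selG 1 2, selG 1 9, selG 2 9, 0xffffffffffffffffffffffffffffffffffffffffffffffffffffffffffffffffffffffffffffffffffffffffffffffffffffffffffffffffffffffffffffffffffffffffffffffffffffffffffffffffffffffffffffffffffffffffffffffffffffffffffffffffffffffffffff00ffffffffffffffffffffff00ffffffffffff00ffffffff00ffffffffffff0000ff] = true)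
    (gC (by decide) q_325_0_1 (gC (by decide) q_325_0_2 (gC (by decide) q_325_0_9 (gC (by decide) q_325_1_2 (gC (by decide) q_325_1_9 (gC (by decide) q_325_2_9 (pC p_325_6 pN)))))))

theorem h_463 : SA 463 464 :=
  sP (by decide +kernel : coverS [selG 0 1, selG 0 2, selG 0 10, selG 1 2, selG 1 10, selG 2 10, 0xffffffffffffffffffffffffffffffffffffffffffffffffffffffffffffffffffffffffffffffffffffffffffffffffffffffffffffffffffffffffffffffffffffffffffffffffffffffffffffffffffffffffffffffffffffffffffffffffffffffffffffffffffffffffff00ffffffffffffffffffffff00ffffffffffffff00ffffff00ffffffffffffff0000ff] = true)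
    (gC (by decide) q_463_0_1 (gC (by decide) q_463_0_2 (gC (by decide) q_463_0_10 (gC (by decide) q_463_1_2 (gC (by decide) q_463_1_10 (gC (by decide) q_463_2_10 (pC p_463_6 pN)))))))

theorem q_1595_3_5 : GA 1595 0x5490807020601003ab7a0000000000a0806020701003ab69000000000000a45464849303d655000000000000000095a36203d6340000000000000095a4647103d64300000000513161719120a00171716 3 5 0 64 0 64 255 [] :=
  (GA.a (GA.b (GA.a (GA.b (GA.a (GA.b (gG g_1595_3_5_0) (GA.b (gG g_1595_3_5_1) (gG g_1595_3_5_2))) (GA.b (gG g_1595_3_5_3) (gG g_1595_3_5_4))) (GA.b (GA.a (gG g_1595_3_5_5) (gG g_1595_3_5_6)) (GA.a (gG g_1595_3_5_7) (gG g_1595_3_5_8)))) (GA.b (GA.a (GA.b (gG g_1595_3_5_9) (gG g_1595_3_5_10)) (GA.b (gG g_1595_3_5_11) (gG g_1595_3_5_12))) (GA.a (GA.b (gG g_1595_3_5_13) (gG g_1595_3_5_14)) (GA.b (gG g_1595_3_5_15) (gG g_1595_3_5_16))))) (GA.b (GA.a (GA.b (GA.a (gG g_1595_3_5_17)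 (gG g_1595_3_5_18)) (GA.a (gG g_1595_3_5_19) (gG g_1595_3_5_20))) (GA.a (GA.b (gG g_1595_3_5_21) (gG g_1595_3_5_22)) (GA.b (gG g_1595_3_5_23) (gG g_1595_3_5_24)))) (GA.a (GA.b (GA.a (GA.b (gG g_1595_3_5_25) (gG g_1595_3_5_26)) (GA.b (gG g_1595_3_5_27) (gG g_1595_3_5_28))) (GA.a (gG g_1595_3_5_29) (gG g_1595_3_5_30))) (GA.b (GA.a (gG g_1595_3_5_31) (gG g_1595_3_5_32)) (GA.a (GA.b (gG g_1595_3_5_33) (gG g_1595_3_5_34)) (GA.b (gG g_1595_3_5_35) (gG g_1595_3_5_36))))))) (GA.b (GA.a (GA.b (GA.a (GA.a (gG g_1595_3_5_37) (GA.b (gG g_1595_3_5_38) (gG g_1595_3_5_39))) (GA.b (gG g_1595_3_5_40) (gG g_1595_3_5_41))) (GA.a (GA.b (GA.a (gG g_1595_3_5_42) (gG g_1595_3_5_43)) (GA.a (gG g_1595_3_5_44) (gG g_1595_3_5_45))) (GA.b (gG g_1595_3_5_46) (gG g_1595_3_5_47)))) (GA.b (GA.a (GA.b (gG g_1595_3_5_48) (gG g_1595_3_5_49)) (GA.b (gG g_1595_3_5_50) (gG g_1595_3_5_51))) (GA.b (GA.a (gG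 g_1595_3_5_52) (gG g_1595_3_5_53)) (GA.a (GA.b (gG g_1595_3_5_54) (gG g_1595_3_5_55)) (gG g_1595_3_5_56))))) (GA.a (GA.b (GA.a (GA.b (GA.a (gG g_1595_3_5_57) (gG g_1595_3_5_58)) (GA.a (gG g_1595_3_5_59) (gG g_1595_3_5_60))) (GA.b (GA.b (gG g_1595_3_5_61) (gG g_1595_3_5_62)) (gG g_1595_3_5_63))) (GA.a (GA.b (GA.a (gG g_1595_3_5_64) (gG g_1595_3_5_65)) (GA.a (gG g_1595_3_5_66) (gG g_1595_3_5_67))) (GA.b (gG g_1595_3_5_68) (gG g_1595_3_5_69)))) (GA.b (GA.a (GA.b (gG g_1595_3_5_70) (gG g_1595_3_5_71)) (GA.b (gG g_1595_3_5_72) (gG g_1595_3_5_73))) (GA.a (GA.b (gG g_1595_3_5_74) (gG g_1595_3_5_75)) (GA.b (gG g_1595_3_5_76) (gG g_1595_3_5_77)))))))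

theorem h_1595 : SA 1595 1596 :=
  sP (by decide +kernel : coverS [selG 1 3, selG 1 4, selG 1 5, selG 3 4, selG 3 5, selG 3 9, selG 3 10, selG 4 5, selG 4 9, selG 4 10, selG 5 9, selG 5 10, selG 9 10, 0xffffffffffffffffffffffffffffffffffffffffffffffffff00ffffffffffffffffffffffffffffffffffffffffffffffffffffffffffffffffffffffffffffffffffffffffffffff0000ffffffffffffffffffff0000ffffff00ffffffffffff0000ffffff0000ffffffffffffffffffffffffffffffffffffffffffff000000ffffffffffffffffffffffffffffff] = true)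
    (gC (by decide) q_1595_1_3 (gC (by decide) q_1595_1_4 (gC (by decide) q_1595_1_5 (gC (by decide) q_1595_3_4 (gC (by decide) q_1595_3_5 (gC (by decide) q_1595_3_9 (gC (by decide) q_1595_3_10 (gC (by decide) q_1595_4_5 (gC (by decide) q_1595_4_9 (gC (by decide) q_1595_4_10 (gC (by decide) q_1595_5_9 (gC (by decide) q_1595_5_10 (gC (by decide) q_1595_9_10 (pC p_1595_13 pN))))))))))))))

theorem q_2773_0_1 : GA 2773 0x31a161814070006b6900000000635343a1719020019878000000005464a1718190200198770000000054912181a030700198720000000000416020a0305002856100000000000087a24261300285506 0 1 0 64 0 64 255 [] :=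
  (GA.a (GA.b (GA.s (y := 255) (by decide) (GA.s (y := 3) (by decide) (GA.l (GA.l (GA.l (GA.l (GA.l (gL g_2773_0_1_0) (gL g_2773_0_1_1)) (GA.l (gL g_2773_0_1_2) (gL g_2773_0_1_3))) (GA.l (GA.l (gL g_2773_0_1_4) (gL g_2773_0_1_5)) (GA.l (gL g_2773_0_1_6) (gL g_2773_0_1_7)))) (GA.l (GA.l (GA.l (gL g_2773_0_1_8) (gL g_2773_0_1_9)) (GA.l (gL g_2773_0_1_10) (gL g_2773_0_1_11))) (GA.l (GA.l (gL g_2773_0_1_12) (gL g_2773_0_1_13)) (GA.l (gL g_2773_0_1_14) (gL g_2773_0_1_15))))) (GA.l (GA.l (GA.l (GA.l (gL g_2773_0_1_16) (gL g_2773_0_1_17)) (GA.l (gL g_2773_0_1_18) (gL g_2773_0_1_19))) (GA.l (GA.l (gL g_2773_0_1_20) (gL g_2773_0_1_21)) (GA.l (gL g_2773_0_1_22) (gL g_2773_0_1_23)))) (GA.l (GA.l (GA.l (gL g_2773_0_1_24) (gL g_2773_0_1_25)) (GA.l (gL g_2773_0_1_26) (gL g_2773_0_1_27))) (GA.l (GA.l (gL g_2773_0_1_28) (gL g_2773_0_1_29)) (GA.l (gL g_2773_0_1_30) (gL g_2773_0_1_31))))))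 (GA.l (GA.l (GA.l (GA.l (GA.l (GA.l (GA.l (gL g_2773_0_1_32) (gL g_2773_0_1_33)) (GA.l (gL g_2773_0_1_34) (gL g_2773_0_1_35))) (GA.l (GA.l (gL g_2773_0_1_36) (gL g_2773_0_1_37)) (GA.l (gL g_2773_0_1_38) (gL g_2773_0_1_39)))) (GA.l (GA.l (GA.l (gL g_2773_0_1_40) (gL g_2773_0_1_41)) (GA.l (gL g_2773_0_1_42) (gL g_2773_0_1_43))) (GA.l (gL g_2773_0_1_44) (GA.l (GA.l (gL g_2773_0_1_45) (gL g_2773_0_1_46)) (gL g_2773_0_1_47))))) (GA.l (GA.l (GA.l (GA.l (gL g_2773_0_1_48) (gL g_2773_0_1_49)) (GA.l (gL g_2773_0_1_50) (gL g_2773_0_1_51))) (GA.l (GA.l (gL g_2773_0_1_52) (gL g_2773_0_1_53)) (GA.l (gL g_2773_0_1_54) (GA.l (gL g_2773_0_1_55) (gL g_2773_0_1_56))))) (GA.l (GA.l (GA.l (gL g_2773_0_1_57) (gL g_2773_0_1_58)) (GA.l (GA.l (gL g_2773_0_1_59) (gL g_2773_0_1_60)) (gL g_2773_0_1_61))) (GA.l (GA.l (gL g_2773_0_1_62) (gL g_2773_0_1_63)) (GA.l (gL g_2773_0_1_64) (gL g_2773_0_1_65))))))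 (GA.l (GA.l (GA.l (GA.l (GA.l (gL g_2773_0_1_66) (gL g_2773_0_1_67)) (GA.l (gL g_2773_0_1_68) (GA.l (gL g_2773_0_1_69) (gL g_2773_0_1_70)))) (GA.l (GA.l (gL g_2773_0_1_71) (gL g_2773_0_1_72)) (GA.l (gL g_2773_0_1_73) (gL g_2773_0_1_74)))) (GA.l (GA.l (GA.l (gL g_2773_0_1_75) (gL g_2773_0_1_76)) (GA.l (gL g_2773_0_1_77) (gL g_2773_0_1_78))) (GA.l (GA.l (gL g_2773_0_1_79) (gL g_2773_0_1_80)) (GA.l (gL g_2773_0_1_81) (gL g_2773_0_1_82))))) (GA.l (GA.l (GA.l (GA.l (gL g_2773_0_1_83) (gL g_2773_0_1_84)) (GA.l (gL g_2773_0_1_85) (gL g_2773_0_1_86))) (GA.l (GA.l (gL g_2773_0_1_87) (gL g_2773_0_1_88)) (GA.l (gL g_2773_0_1_89) (GA.l (gL g_2773_0_1_90) (gL g_2773_0_1_91))))) (GA.l (GA.l (GA.l (gL g_2773_0_1_92) (gL g_2773_0_1_93)) (gL g_2773_0_1_94)) (GA.l (GA.l (gL g_2773_0_1_95) (GA.l (gL g_2773_0_1_96) (gL g_2773_0_1_97))) (gL g_2773_0_1_98)))))) (GA.l (GA.l (GA.l (GA.l (GA.l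 (GA.l (gL g_2773_0_1_99) (gL g_2773_0_1_100)) (GA.l (gL g_2773_0_1_101) (GA.l (gL g_2773_0_1_102) (gL g_2773_0_1_103)))) (GA.l (GA.l (gL g_2773_0_1_104) (gL g_2773_0_1_105)) (GA.l (gL g_2773_0_1_106) (gL g_2773_0_1_107)))) (GA.l (GA.l (gL g_2773_0_1_108) (gL g_2773_0_1_109)) (GA.l (gL g_2773_0_1_110) (GA.l (gL g_2773_0_1_111) (GA.l (GA.l (gL g_2773_0_1_112) (gL g_2773_0_1_113)) (gL g_2773_0_1_114)))))) (GA.l (GA.l (GA.l (GA.l (gL g_2773_0_1_115) (gL g_2773_0_1_116)) (GA.l (gL g_2773_0_1_117) (gL g_2773_0_1_118))) (GA.l (gL g_2773_0_1_119) (GA.l (gL g_2773_0_1_120) (GA.l (gL g_2773_0_1_121) (gL g_2773_0_1_122))))) (GA.l (GA.l (gL g_2773_0_1_123) (gL g_2773_0_1_124)) (GA.l (gL g_2773_0_1_125) (GA.l (gL g_2773_0_1_126) (GA.l (gL g_2773_0_1_127) (gL g_2773_0_1_128))))))) (GA.l (GA.l (GA.l (GA.l (GA.l (gL g_2773_0_1_129) (gL g_2773_0_1_130)) (GA.l (gL g_2773_0_1_131) (gL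 g_2773_0_1_132))) (GA.l (GA.l (gL g_2773_0_1_133) (gL g_2773_0_1_134)) (GA.l (gL g_2773_0_1_135) (gL g_2773_0_1_136)))) (GA.l (GA.l (GA.l (gL g_2773_0_1_137) (gL g_2773_0_1_138)) (GA.l (gL g_2773_0_1_139) (gL g_2773_0_1_140))) (GA.l (gL g_2773_0_1_141) (GA.l (GA.l (gL g_2773_0_1_142) (gL g_2773_0_1_143)) (gL g_2773_0_1_144))))) (GA.l (GA.l (GA.l (GA.l (gL g_2773_0_1_145) (gL g_2773_0_1_146)) (GA.l (gL g_2773_0_1_147) (gL g_2773_0_1_148))) (GA.l (GA.l (gL g_2773_0_1_149) (gL g_2773_0_1_150)) (GA.l (gL g_2773_0_1_151) (gL g_2773_0_1_152)))) (GA.l (GA.l (GA.l (gL g_2773_0_1_153) (gL g_2773_0_1_154)) (GA.l (gL g_2773_0_1_155) (gL g_2773_0_1_156))) (GA.l (gL g_2773_0_1_157) (GA.l (gL g_2773_0_1_158) (GA.l (gL g_2773_0_1_159) (gL g_2773_0_1_160)))))))))) (GA.s (y := 252) (by decide) (GA.l (GA.l (GA.l (GA.l (GA.l (GA.l (gL g_2773_0_1_161) (gL g_2773_0_1_162)) (GA.l (gL g_2773_0_1_163)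 (gL g_2773_0_1_164))) (GA.l (GA.l (gL g_2773_0_1_165) (gL g_2773_0_1_166)) (GA.l (gL g_2773_0_1_167) (gL g_2773_0_1_168)))) (GA.l (GA.l (GA.l (gL g_2773_0_1_169) (gL g_2773_0_1_170)) (GA.l (gL g_2773_0_1_171) (gL g_2773_0_1_172))) (GA.l (GA.l (gL g_2773_0_1_173) (gL g_2773_0_1_174)) (GA.l (gL g_2773_0_1_175) (gL g_2773_0_1_176))))) (GA.l (GA.l (GA.l (GA.l (gL g_2773_0_1_177) (gL g_2773_0_1_178)) (GA.l (gL g_2773_0_1_179) (gL g_2773_0_1_180))) (GA.l (GA.l (gL g_2773_0_1_181) (gL g_2773_0_1_182)) (GA.l (gL g_2773_0_1_183) (gL g_2773_0_1_184)))) (GA.l (GA.l (GA.l (gL g_2773_0_1_185) (gL g_2773_0_1_186)) (GA.l (gL g_2773_0_1_187) (gL g_2773_0_1_188))) (GA.l (GA.l (gL g_2773_0_1_189) (gL g_2773_0_1_190)) (GA.l (gL g_2773_0_1_191) (gL g_2773_0_1_192)))))) (GA.l (GA.l (GA.l (GA.l (gL g_2773_0_1_193) (gL g_2773_0_1_194)) (GA.l (gL g_2773_0_1_195) (GA.l (gL g_2773_0_1_196) (gL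 g_2773_0_1_197)))) (GA.l (GA.l (gL g_2773_0_1_198) (gL g_2773_0_1_199)) (GA.l (gL g_2773_0_1_200) (gL g_2773_0_1_201)))) (GA.l (GA.l (GA.l (gL g_2773_0_1_202) (gL g_2773_0_1_203)) (GA.l (gL g_2773_0_1_204) (GA.l (gL g_2773_0_1_205) (gL g_2773_0_1_206)))) (GA.l (GA.l (gL g_2773_0_1_207) (GA.l (gL g_2773_0_1_208) (gL g_2773_0_1_209))) (GA.l (GA.l (gL g_2773_0_1_210) (gL g_2773_0_1_211)) (gL g_2773_0_1_212)))))) (GA.s (y := 248) (by decide) (GA.s (y := 24) (by decide) (GA.l (GA.l (gL g_2773_0_1_213) (gL g_2773_0_1_214)) (GA.l (gL g_2773_0_1_215) (gL g_2773_0_1_216))) (GA.l (GA.l (gL g_2773_0_1_217) (gL g_2773_0_1_218)) (GA.l (gL g_2773_0_1_219) (GA.l (gL g_2773_0_1_220) (gL g_2773_0_1_221))))) (GA.s (y := 224) (by decide) (GA.s (y := 96) (by decide) (gG g_2773_0_1_222) (GA.l (gL g_2773_0_1_223) (gL g_2773_0_1_224))) (GA.l (GA.l (GA.l (gL g_2773_0_1_225) (gL g_2773_0_1_226))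 (GA.l (gL g_2773_0_1_227) (gL g_2773_0_1_228))) (GA.l (GA.l (gL g_2773_0_1_229) (gL g_2773_0_1_230)) (GA.l (gL g_2773_0_1_231) (gL g_2773_0_1_232)))))))) (GA.b (GA.s (y := 255) (by decide) (GA.s (y := 3) (by decide) (GA.l (gL g_2773_0_1_233) (gL g_2773_0_1_234)) (GA.l (GA.l (GA.l (gL g_2773_0_1_235) (gL g_2773_0_1_236)) (GA.l (gL g_2773_0_1_237) (gL g_2773_0_1_238))) (GA.l (GA.l (gL g_2773_0_1_239) (gL g_2773_0_1_240)) (GA.l (gL g_2773_0_1_241) (gL g_2773_0_1_242))))) (GA.s (y := 252) (by decide) (GA.l (GA.l (gL g_2773_0_1_243) (gL g_2773_0_1_244)) (GA.l (gL g_2773_0_1_245) (gL g_2773_0_1_246))) (GA.s (y := 248) (by decide) (gG g_2773_0_1_247) (gG g_2773_0_1_248)))) (GA.b (GA.s (y := 255) (by decide) (GA.s (y := 3) (by decide) (gG g_2773_0_1_249) (GA.l (GA.l (gL g_2773_0_1_250) (gL g_2773_0_1_251)) (GA.l (gL g_2773_0_1_252) (gL g_2773_0_1_253)))) (GA.s (y := 252) (by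 decide) (gG g_2773_0_1_254) (gG g_2773_0_1_255))) (GA.s (y := 255) (by decide) (GA.s (y := 3) (by decide) (GA.l (gL g_2773_0_1_256) (gL g_2773_0_1_257)) (GA.l (GA.l (gL g_2773_0_1_258) (gL g_2773_0_1_259)) (GA.l (gL g_2773_0_1_260) (gL g_2773_0_1_261)))) (GA.s (y := 252) (by decide) (GA.l (gL g_2773_0_1_262) (gL g_2773_0_1_263)) (gG g_2773_0_1_264)))))) (GA.b (GA.a (GA.s (y := 255) (by decide) (GA.s (y := 7) (by decide) (GA.l (GA.l (GA.l (gL g_2773_0_1_265) (gL g_2773_0_1_266)) (GA.l (gL g_2773_0_1_267) (gL g_2773_0_1_268))) (GA.l (GA.l (gL g_2773_0_1_269) (gL g_2773_0_1_270)) (GA.l (gL g_2773_0_1_271) (gL g_2773_0_1_272)))) (gG g_2773_0_1_273)) (GA.s (y := 248) (by decide) (GA.s (y := 56) (by decide) (GA.l (gL g_2773_0_1_274) (gL g_2773_0_1_275)) (gG g_2773_0_1_276)) (GA.s (y := 192) (by decide) (GA.l (GA.l (GA.l (gL g_2773_0_1_277) (gL g_2773_0_1_278)) (GA.l (gL g_2773_0_1_279)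 (gL g_2773_0_1_280))) (GA.l (gL g_2773_0_1_281) (gL g_2773_0_1_282))) (gG g_2773_0_1_283)))) (GA.a (GA.s (y := 255) (by decide) (gG g_2773_0_1_284) (GA.l (GA.l (GA.l (gL g_2773_0_1_285) (gL g_2773_0_1_286)) (GA.l (gL g_2773_0_1_287) (gL g_2773_0_1_288))) (GA.l (GA.l (gL g_2773_0_1_289) (gL g_2773_0_1_290)) (GA.l (gL g_2773_0_1_291) (gL g_2773_0_1_292))))) (GA.s (y := 255) (by decide) (GA.l (GA.l (GA.l (gL g_2773_0_1_293) (gL g_2773_0_1_294)) (GA.l (gL g_2773_0_1_295) (gL g_2773_0_1_296))) (GA.l (GA.l (gL g_2773_0_1_297) (gL g_2773_0_1_298)) (GA.l (gL g_2773_0_1_299) (gL g_2773_0_1_300)))) (gG g_2773_0_1_301)))) (GA.a (GA.b (GA.s (y := 255) (by decide) (gG g_2773_0_1_302) (gG g_2773_0_1_303)) (GA.b (gG g_2773_0_1_304) (gG g_2773_0_1_305))) (GA.b (GA.a (gG g_2773_0_1_306) (gG g_2773_0_1_307)) (GA.a (GA.b (GA.s (y := 255) (by decide) (GA.s (y := 7) (by decide) (gG g_2773_0_1_308)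 (gG g_2773_0_1_309)) (gG g_2773_0_1_310)) (gG g_2773_0_1_311)) (gG g_2773_0_1_312))))))

theorem h_2773 : SA 2773 2774 :=
  sP (by decide +kernel : coverS [selG 0 1, selG 0 2, selG 0 7, selG 0 8, selG 0 9, selG 1 2, selG 1 7, selG 1 8, selG 1 9, selG 2 7, selG 2 8, selG 2 9, selG 7 8, selG 7 9, selG 8 9, 0xffffffffffffffffffffffffffffffffffffffffffffffffffffffffffffffffffffffffffff00ffffffffffffffffffffff0000ffffffffffffffffffffffffffffffffffffffffffffffffffffffffffffffffffffffffffffffffffffffffffffffffffffffffffffffffffff000000ffffffffffffffffff000000ffffffff00ffffffff000000ffffffff0000ff] = true)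
    (gC (by decide) q_2773_0_1 (gC (by decide) q_2773_0_2 (gC (by decide) q_2773_0_7 (gC (by decide) q_2773_0_8 (gC (by decide) q_2773_0_9 (gC (by decide) q_2773_1_2 (gC (by decide) q_2773_1_7 (gC (by decide) q_2773_1_8 (gC (by decide) q_2773_1_9 (gC (by decide) q_2773_2_7 (gC (by decide) q_2773_2_8 (gC (by decide) q_2773_2_9 (gC (by decide) q_2773_7_8 (gC (by decide) q_2773_7_9 (gC (by decide) q_2773_8_9 (pC p_2773_15 pN))))))))))))))))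

theorem q_2774_2_8 : GA 2774 0x6272429282320173690000000000000074a4928203d6480000000000000098a2623203d6470000000000000098a7546403d6420000000000a58070103090031f61000000000000a581213090031f506 2 8 0 64 0 64 255 [] :=
  (GA.a (GA.b (GA.a (GA.b (GA.a (GA.b (gG g_2774_2_8_0) (GA.b (gG g_2774_2_8_1) (gG g_2774_2_8_2))) (GA.b (gG g_2774_2_8_3) (gG g_2774_2_8_4))) (GA.b (GA.a (gG g_2774_2_8_5) (gG g_2774_2_8_6)) (GA.a (GA.b (gG g_2774_2_8_7) (gG g_2774_2_8_8)) (gG g_2774_2_8_9)))) (GA.b (GA.a (GA.b (GA.a (gG g_2774_2_8_10) (gG g_2774_2_8_11)) (gG g_2774_2_8_12)) (GA.b (GA.a (gG g_2774_2_8_13) (gG g_2774_2_8_14)) (gG g_2774_2_8_15))) (GA.a (GA.b (gG g_2774_2_8_16) (GA.a (gG g_2774_2_8_17) (gG g_2774_2_8_18))) (GA.b (gG g_2774_2_8_19) (GA.a (gG g_2774_2_8_20) (gG g_2774_2_8_21)))))) (GA.a (GA.b (GA.b (GA.a (GA.b (gG g_2774_2_8_22) (gG g_2774_2_8_23)) (GA.b (gG g_2774_2_8_24)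 (gG g_2774_2_8_25))) (GA.a (gG g_2774_2_8_26) (gG g_2774_2_8_27))) (GA.b (GA.a (gG g_2774_2_8_28) (gG g_2774_2_8_29)) (GA.a (gG g_2774_2_8_30) (gG g_2774_2_8_31)))) (GA.b (GA.a (GA.b (GA.a (gG g_2774_2_8_32) (gG g_2774_2_8_33)) (gG g_2774_2_8_34)) (GA.b (GA.a (gG g_2774_2_8_35) (gG g_2774_2_8_36)) (GA.a (gG g_2774_2_8_37) (gG g_2774_2_8_38)))) (GA.a (GA.b (gG g_2774_2_8_39) (gG g_2774_2_8_40)) (GA.b (GA.a (gG g_2774_2_8_41) (gG g_2774_2_8_42)) (gG g_2774_2_8_43)))))) (GA.b (GA.a (GA.b (GA.a (GA.b (GA.a (gG g_2774_2_8_44) (gG g_2774_2_8_45)) (gG g_2774_2_8_46)) (GA.b (gG g_2774_2_8_47) (gG g_2774_2_8_48))) (GA.b (GA.a (GA.a (gG g_2774_2_8_49) (gG g_2774_2_8_50)) (gG g_2774_2_8_51)) (GA.a (GA.a (gG g_2774_2_8_52) (gG g_2774_2_8_53)) (GA.b (gG g_2774_2_8_54) (gG g_2774_2_8_55))))) (GA.b (GA.a (GA.b (gG g_2774_2_8_56) (gG g_2774_2_8_57)) (GA.b (gG g_2774_2_8_58) (gG g_2774_2_8_59)))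 (GA.b (GA.a (gG g_2774_2_8_60) (gG g_2774_2_8_61)) (GA.a (gG g_2774_2_8_62) (gG g_2774_2_8_63))))) (GA.a (GA.b (GA.a (GA.b (GA.a (gG g_2774_2_8_64) (gG g_2774_2_8_65)) (gG g_2774_2_8_66)) (GA.b (GA.b (gG g_2774_2_8_67) (gG g_2774_2_8_68)) (gG g_2774_2_8_69))) (GA.a (GA.b (GA.a (gG g_2774_2_8_70) (gG g_2774_2_8_71)) (gG g_2774_2_8_72)) (GA.b (gG g_2774_2_8_73) (gG g_2774_2_8_74)))) (GA.b (GA.a (GA.b (gG g_2774_2_8_75) (gG g_2774_2_8_76)) (GA.b (gG g_2774_2_8_77) (gG g_2774_2_8_78))) (GA.a (GA.b (gG g_2774_2_8_79) (gG g_2774_2_8_80)) (GA.b (gG g_2774_2_8_81) (gG g_2774_2_8_82)))))))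

theorem h_2774 : SA 2774 2775 :=
  sP (by decide +kernel : coverS [selG 2 7, selG 2 8, selG 2 9, selG 7 8, selG 7 9, selG 8 9, 0xff00, 0xff0000, 0xff00000000000000, 0xffff0000000000000000, 0xff0000000000000000000000000000, 0xff00000000000000000000000000000000000000, 0xffffffffffffffffffffffffffffffffffffffffffffffffffffffffffffffffffffffffffff00ffffffffffffffffffffff0000ffffffffffffffffffffffffffffffffffffffffffffffffffffffffffffffffffffffffffffffffffffffffffffffffffffffffffffffffffff000000ffffffffffffffffffffff00ffffffff00ffffffff000000ffffffff0000ff] = true)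
    (gC (by decide) q_2774_2_7 (gC (by decide) q_2774_2_8 (gC (by decide) q_2774_2_9 (gC (by decide) q_2774_7_8 (gC (by decide) q_2774_7_9 (gC (by decide) q_2774_8_9 (pC p_2774_6 (pC p_2774_7 (pC p_2774_8 (pC p_2774_9 (pC p_2774_10 (pC p_2774_11 (pC p_2774_12 pN)))))))))))))

theorem q_4685_2_10 : GA 4685 0x317020a0804050609000cd9a0000009484327262a0105000378900000031a060407080209002ab850000973020a01040608050003793000000816121319151a17100b08200000000613151a171412000b0706 2 10 0 64 0 64 255 [] :=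
  (GA.s (y := 255) (by decide) (GA.l (gL g_4685_2_10_0) (gL g_4685_2_10_1)) (gG g_4685_2_10_2))

theorem h_4685 : SA 4685 4686 :=
  sP (by decide +kernel : coverS [selG 0 10, selG 2 10, 0xffffffffffffffffffffffffffffffffffffffffffffffffffffffffffffffffffffffffffffffffffffffffffffffffffffffffffffffffffffffffffffffffffffffffffffffffffffffffffffffffffffffffffffffffffffffffffffffffffffffffffffffffffffffffff00ffffffffffffffffffffffffffffffffffffffffffffff00ffffffffffffffffffff] = true)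
    (gC (by decide) q_4685_0_10 (gC (by decide) q_4685_2_10 (pC p_4685_2 pN)))

theorem q_6580_5_7 : GA 6580 0x82723161419102e76a00000031715121816191a102e78900000000000053a363839103d657000000000000a79141312103d65500000000000000a754946003d64100000061a1205030704090017b806 5 7 0 64 0 64 255 [] :=
  (GA.a (GA.b (GA.a (GA.b (GA.a (GA.b (GA.a (gG g_6580_5_7_0) (gG g_6580_5_7_1)) (gG g_6580_5_7_2)) (GA.b (GA.a (gG g_6580_5_7_3) (gG g_6580_5_7_4)) (gG g_6580_5_7_5))) (GA.b (GA.a (gG g_6580_5_7_6) (gG g_6580_5_7_7)) (GA.a (GA.b (gG g_6580_5_7_8) (gG g_6580_5_7_9)) (GA.b (gG g_6580_5_7_10) (gG g_6580_5_7_11))))) (GA.b (GA.a (GA.b (GA.a (gG g_6580_5_7_12) (gG g_6580_5_7_13)) (gG g_6580_5_7_14)) (GA.b (gG g_6580_5_7_15) (gG g_6580_5_7_16))) (GA.a (GA.b (gG g_6580_5_7_17) (GA.a (gG g_6580_5_7_18) (gG g_6580_5_7_19))) (GA.b (GA.a (gG g_6580_5_7_20) (gG g_6580_5_7_21)) (GA.a (gG g_6580_5_7_22)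 (gG g_6580_5_7_23)))))) (GA.a (GA.b (GA.b (GA.a (GA.b (gG g_6580_5_7_24) (gG g_6580_5_7_25)) (gG g_6580_5_7_26)) (GA.a (GA.a (gG g_6580_5_7_27) (gG g_6580_5_7_28)) (GA.a (gG g_6580_5_7_29) (gG g_6580_5_7_30)))) (GA.b (GA.a (gG g_6580_5_7_31) (gG g_6580_5_7_32)) (GA.a (gG g_6580_5_7_33) (gG g_6580_5_7_34)))) (GA.b (GA.a (GA.b (GA.a (gG g_6580_5_7_35) (gG g_6580_5_7_36)) (gG g_6580_5_7_37)) (GA.b (GA.a (gG g_6580_5_7_38) (gG g_6580_5_7_39)) (GA.a (gG g_6580_5_7_40) (gG g_6580_5_7_41)))) (GA.a (GA.b (gG g_6580_5_7_42) (gG g_6580_5_7_43)) (GA.b (gG g_6580_5_7_44) (GA.a (gG g_6580_5_7_45) (gG g_6580_5_7_46))))))) (GA.b (GA.a (GA.b (GA.a (GA.b (GA.a (gG g_6580_5_7_47) (gG g_6580_5_7_48)) (gG g_6580_5_7_49)) (GA.b (gG g_6580_5_7_50) (GA.a (gG g_6580_5_7_51) (gG g_6580_5_7_52)))) (GA.b (GA.a (gG g_6580_5_7_53) (gG g_6580_5_7_54)) (GA.a (GA.a (gG g_6580_5_7_55) (gG g_6580_5_7_56))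 (GA.b (gG g_6580_5_7_57) (gG g_6580_5_7_58))))) (GA.b (GA.a (GA.b (GA.a (gG g_6580_5_7_59) (gG g_6580_5_7_60)) (gG g_6580_5_7_61)) (GA.b (gG g_6580_5_7_62) (gG g_6580_5_7_63))) (GA.b (GA.a (gG g_6580_5_7_64) (gG g_6580_5_7_65)) (GA.a (GA.b (gG g_6580_5_7_66) (gG g_6580_5_7_67)) (gG g_6580_5_7_68))))) (GA.a (GA.b (GA.a (GA.b (GA.a (gG g_6580_5_7_69) (gG g_6580_5_7_70)) (GA.a (gG g_6580_5_7_71) (gG g_6580_5_7_72))) (GA.b (gG g_6580_5_7_73) (GA.a (gG g_6580_5_7_74) (gG g_6580_5_7_75)))) (GA.a (GA.b (gG g_6580_5_7_76) (gG g_6580_5_7_77)) (GA.b (gG g_6580_5_7_78) (gG g_6580_5_7_79)))) (GA.b (GA.a (GA.b (gG g_6580_5_7_80) (gG g_6580_5_7_81)) (GA.b (gG g_6580_5_7_82) (gG g_6580_5_7_83))) (GA.b (GA.a (gG g_6580_5_7_84) (gG g_6580_5_7_85)) (GA.a (gG g_6580_5_7_86) (GA.b (gG g_6580_5_7_87) (gG g_6580_5_7_88))))))))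

theorem h_6580 : SA 6580 6581 :=
  sP (by decide +kernel : coverS [selG 1 5, selG 1 7, selG 1 9, selG 1 10, selG 5 7, selG 5 9, selG 5 10, selG 7 9, selG 7 10, 0xff00, 0xff0000000000, 0xffffffffffffffffffffffffffffffffffffffffffffffffffffffffffffffffffffffffffffffffffffffffffffffffff0000ffffffffffffffffffffffffffffffffffffffffffff0000ff00ffffffffffffffffffffffffffffffffffffffffffffffffffffffffffffffffffffffffffffffffffffffff0000ff00ff00ffffffffffffffffffffff00ffffff00ff] = true)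
    (gC (by decide) q_6580_1_5 (gC (by decide) q_6580_1_7 (gC (by decide) q_6580_1_9 (gC (by decide) q_6580_1_10 (gC (by decide) q_6580_5_7 (gC (by decide) q_6580_5_9 (gC (by decide) q_6580_5_10 (gC (by decide) q_6580_7_9 (gC (by decide) q_6580_7_10 (pC p_6580_9 (pC p_6580_10 (pC p_6580_11 pN))))))))))))

theorem q_14656_1_6 : GA 14656 0x62901030a08070504001b29a00008262327290a010504000e099000000000000008796a12003d64800000000000000a864912103d64600000051814131a1207090036a84000000000000a84261913103d6516 1 6 0 64 0 64 255 [] :=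
  (GA.a (GA.b (GA.a (GA.b (GA.a (GA.b (GA.a (gG g_14656_1_6_0) (gG g_14656_1_6_1)) (gG g_14656_1_6_2)) (GA.b (gG g_14656_1_6_3) (gG g_14656_1_6_4))) (GA.b (GA.a (gG g_14656_1_6_5) (gG g_14656_1_6_6)) (GA.a (GA.a (gG g_14656_1_6_7) (gG g_14656_1_6_8)) (gG g_14656_1_6_9)))) (GA.b (GA.a (GA.b (gG g_14656_1_6_10) (gG g_14656_1_6_11)) (GA.b (GA.a (gG g_14656_1_6_12) (gG g_14656_1_6_13)) (GA.a (gG g_14656_1_6_14) (gG g_14656_1_6_15)))) (GA.a (GA.b (gG g_14656_1_6_16) (gG g_14656_1_6_17)) (GA.b (GA.a (gG g_14656_1_6_18) (gG g_14656_1_6_19)) (gG g_14656_1_6_20))))) (GA.b (GA.a (GA.b (GA.a (GA.b (gG g_14656_1_6_21) (gG g_14656_1_6_22)) (GA.b (gG g_14656_1_6_23) (gG g_14656_1_6_24))) (GA.a (gG g_14656_1_6_25) (gG g_14656_1_6_26))) (GA.a (GA.b (gG g_14656_1_6_27) (GA.a (gG g_14656_1_6_28) (gG g_14656_1_6_29))) (GA.b (GA.b (gG g_14656_1_6_30) (gG g_14656_1_6_31)) (GA.a (gG g_14656_1_6_32)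 (gG g_14656_1_6_33))))) (GA.a (GA.b (GA.a (GA.a (gG g_14656_1_6_34) (gG g_14656_1_6_35)) (gG g_14656_1_6_36)) (GA.a (gG g_14656_1_6_37) (gG g_14656_1_6_38))) (GA.a (GA.b (gG g_14656_1_6_39) (gG g_14656_1_6_40)) (GA.b (gG g_14656_1_6_41) (GA.a (gG g_14656_1_6_42) (gG g_14656_1_6_43))))))) (GA.b (GA.a (GA.b (GA.a (GA.b (GA.a (gG g_14656_1_6_44) (gG g_14656_1_6_45)) (GA.a (gG g_14656_1_6_46) (gG g_14656_1_6_47))) (GA.b (gG g_14656_1_6_48) (gG g_14656_1_6_49))) (GA.a (GA.b (GA.a (gG g_14656_1_6_50) (gG g_14656_1_6_51)) (gG g_14656_1_6_52)) (GA.b (gG g_14656_1_6_53) (gG g_14656_1_6_54)))) (GA.b (GA.a (GA.b (GA.a (gG g_14656_1_6_55) (gG g_14656_1_6_56)) (gG g_14656_1_6_57)) (GA.b (gG g_14656_1_6_58) (gG g_14656_1_6_59))) (GA.a (GA.b (gG g_14656_1_6_60) (gG g_14656_1_6_61)) (GA.b (gG g_14656_1_6_62) (gG g_14656_1_6_63))))) (GA.b (GA.a (GA.b (GA.a (gG g_14656_1_6_64) (gG g_14656_1_6_65))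 (GA.a (GA.a (gG g_14656_1_6_66) (gG g_14656_1_6_67)) (GA.b (gG g_14656_1_6_68) (gG g_14656_1_6_69)))) (GA.b (GA.a (GA.b (gG g_14656_1_6_70) (gG g_14656_1_6_71)) (GA.b (gG g_14656_1_6_72) (gG g_14656_1_6_73))) (GA.a (gG g_14656_1_6_74) (gG g_14656_1_6_75)))) (GA.a (GA.a (GA.b (gG g_14656_1_6_76) (gG g_14656_1_6_77)) (GA.b (gG g_14656_1_6_78) (gG g_14656_1_6_79))) (GA.a (GA.b (gG g_14656_1_6_80) (gG g_14656_1_6_81)) (GA.b (gG g_14656_1_6_82) (gG g_14656_1_6_83)))))))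

theorem h_14656 : SA 14656 14657 :=
  sP (by decide +kernel : coverS [selG 1 4, selG 1 6, selG 1 8, selG 1 9, selG 1 10, selG 6 8, selG 6 9, selG 6 10, selG 8 9, selG 8 10, 0xff000000000000000000000000000000000000000000000000000000000000000000000000000000000000000000000000000000000000, 0xffffffffffffffffffffffffffffffffffffffffffffffffffffffffffffffffffffffffff0000ffffffffffffffffffffffffffffffffffffffffffff000000ffffffffffffffffffffffffffffffffffffffffffffffffff00ffffffffffffffffffffffffffffffffffffffffffffffffffffffffffffff000000ff00ff00ffffffffffffffffffffffffffffffff] = true)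
    (gC (by decide) q_14656_1_4 (gC (by decide) q_14656_1_6 (gC (by decide) q_14656_1_8 (gC (by decide) q_14656_1_9 (gC (by decide) q_14656_1_10 (gC (by decide) q_14656_6_8 (gC (by decide) q_14656_6_9 (gC (by decide) q_14656_6_10 (gC (by decide) q_14656_8_9 (gC (by decide) q_14656_8_10 (pC p_14656_10 (pC p_14656_11 pN))))))))))))

theorem q_24007_4_6 : GA 24007 0x94836373a3006b5a00000062a171519131804000b2860000000053438292a1716000b274000000000000a676854292019852000000009454748461a121019871000000000000967685a4200198506 4 6 0 64 0 64 255 [] :=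
  (GA.s (y := 255) (by decide) (GA.l (GA.l (gL g_24007_4_6_0) (gL g_24007_4_6_1)) (GA.l (gL g_24007_4_6_2) (gL g_24007_4_6_3))) (GA.s (y := 254) (by decide) (gG g_24007_4_6_4) (gG g_24007_4_6_5)))

theorem h_24007 : SA 24007 24008 :=
  sP (by decide +kernel : coverS [selG 0 1, selG 0 2, selG 0 4, selG 0 6, selG 0 10, selG 1 2, selG 1 4, selG 1 6, selG 1 10, selG 2 4, selG 2 6, selG 2 10, selG 4 6, selG 4 10, selG 6 10, 0xffffffffffffffffffffffffffffffffffffffffffffffffffffffffffffffffffffffffffffffffffffffffffffffffffffffffffffffffffffffffff00ffffffffffffffffffffffffffffffffffffffffffffff00ffffff00ffffffffffffffffffffffffffffffffffffff00ffffff00ff00ffffffffff00ffffff00ff00ff00ffffff00ffffff00ff00ff0000ff] = true)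
    (gC (by decide) q_24007_0_1 (gC (by decide) q_24007_0_2 (gC (by decide) q_24007_0_4 (gC (by decide) q_24007_0_6 (gC (by decide) q_24007_0_10 (gC (by decide) q_24007_1_2 (gC (by decide) q_24007_1_4 (gC (by decide) q_24007_1_6 (gC (by decide) q_24007_1_10 (gC (by decide) q_24007_2_4 (gC (by decide) q_24007_2_6 (gC (by decide) q_24007_2_10 (gC (by decide) q_24007_4_6 (gC (by decide) q_24007_4_10 (gC (by decide) q_24007_6_10 (pC p_24007_15 pN))))))))))))))))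

end Pool.Agent.Gen.TY.A
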